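import Pool.Agent.N110.RK.Stm

/-!
The exchange inequality for real combinations, from additivity (helper769, for helper110).
-/

set_option autoImplicit false

open Multiset Filter Topology

namespace Pool.Agent.N769.RK

open Pool.Agent.N110 Pool.Agent.N110.RK

section

variable {G : Type}

theorem mixL_congr (θs : List (G →₀ ℝ)) : ∀ (J J' : Multiset G → ℝ) (j : ℕ),
    (∀ s, s.card = θs.length + j → J s = J' s) →
    ∀ s, s.card = j → mixL θs J s = mixL θs J' s := by
  induction θs with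
  | nil =>
    intro J J' j h s hs
    exact h s (by simpa using hs)
  | cons θ θs ih =>
    intro J J' j h s hs
    simp only [mixL]
    refine ih _ _ j (fun s' hs' => ?_) s hs
    unfold mix Finsupp.sum
    refine Finset.sum_congr rfl fun v _ => ?_
    beta_reduce
    rw [h (v ::ₘ s') (by rw [card_cons, hs', List.length_cons]; omega)]

theorem mix_smul (θ : G →₀ ℝ) (c : ℝ) (J : Multiset G → ℝ) :
    mix θ (fun s => c * J s) = fun s => c * mix θ J s := by
  funext s
  unfold mix Finsupp.sum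
  rw [Finset.mul_sum]
  refine Finset.sum_congr rfl fun v _ => ?_
  ring

theorem mixL_smul (θs : List (G →₀ ℝ)) : ∀ (c : ℝ) (J : Multiset G → ℝ),
    mixL θs (fun s => c * J s) = fun s => c * mixL θs J s := by
  induction θs with
  | nil =>
    intro c J
    rfl
  | cons θ θs ih =>
    intro c J
    simp only [mixL]
    rw [mix_smul, ih]

/-- the exchange inequality is homogeneous -/
theorem GE_smul {k : ℕ} {J : Multiset G → ℝ} (h : GE k J) (c : ℝ) : GE k (fun s => c * J s) := by
  intro θs hθ hk a b c' d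
  rw [mixL_smul]
  have h1 := mul_le_mul_of_nonneg_left (h θs hθ hk a b c' d) (mul_self_nonneg c)
  calc c * mixL θs J (a ::ₘ b ::ₘ 0) * (c * mixL θs J (c' ::ₘ d ::ₘ 0))
      = c * c * (mixL θs J (a ::ₘ b ::ₘ 0) * mixL θs J (c' ::ₘ d ::ₘ 0)) := by ring
    _ ≤ _ := h1
    _ = _ := by ring

end

section

variable {α G : Type} {n : ℕ} {t : Multiset α → ℝ} {mul : α → α → α} {o : G → α}

/-- multiples of a class -/
theorem exists_mul (hmul : ∀ a b (s : Multiset α), s.card + 1 = n →
    t (mul a b ::ₘ s) = t (a ::ₘ s) + t (b ::ₘ s)) (a : α) (k : ℕ) :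
    ∃ c : α, ∀ s : Multiset α, s.card + 1 = n → t (c ::ₘ s) = ((k + 1 : ℕ) : ℝ) * t (a ::ₘ s) := by
  induction k with
  | zero => exact ⟨a, fun s _ => by simp⟩
  | succ k ih =>
    obtain ⟨c, hc⟩ := ih
    refine ⟨mul c a, fun s hs => ?_⟩
    rw [hmul c a s hs, hc s hs]
    push_cast
    ring

/-- natural combinations of classes -/
theorem exists_cls (hmul : ∀ a b (s : Multiset α), s.card + 1 = n →
    t (mul a b ::ₘ s) = t (a ::ₘ s) + t (b ::ₘ s)) (o : G → α) (k : G → ℕ) (S : Finset G)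
    (hS : S.Nonempty) :
    ∃ c : α, ∀ s : Multiset α, s.card + 1 = n →
      t (c ::ₘ s) = ∑ v ∈ S, ((k v + 1 : ℕ) : ℝ) * t (o v ::ₘ s) := by
  classical
  induction hS using Finset.Nonempty.cons_induction with
  | singleton v =>
    obtain ⟨c, hc⟩ := exists_mul hmul (o v) (k v)
    exact ⟨c, fun s hs => by rw [hc s hs, Finset.sum_singleton]⟩
  | cons v S hv hS ih =>
    obtain ⟨c, hc⟩ := exists_mul hmul (o v) (k v)
    obtain ⟨c', hc'⟩ := ih
    exact ⟨mul c c', fun s hs => by rw [hmul c c' s hs, hc s hs, hc' s hs, Finset.sum_cons]⟩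

theorem tendsto_coeff (x : ℝ) (hx : 0 ≤ x) :
    Tendsto (fun N : ℕ => ((⌊(N : ℝ) * x⌋₊ + 1 : ℕ) : ℝ) / N) atTop (𝓝 x) := by
  have h1 : Tendsto (fun N : ℕ => x + 1 / (N : ℝ)) atTop (𝓝 (x + 0)) :=
    tendsto_const_nhds.add tendsto_one_div_atTop_nhds_zero_nat
  rw [add_zero] at h1
  refine tendsto_of_tendsto_of_tendsto_of_le_of_le' tendsto_const_nhds h1 ?_ ?_
  · filter_upwards [eventually_gt_atTop 0] with N hN
    have hN' : (0 : ℝ) < N := by exact_mod_cast hN
    rw [le_div_iff₀ hN']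
    push_cast
    have := Nat.lt_floor_add_one ((N : ℝ) * x)
    linarith
  · filter_upwards [eventually_gt_atTop 0] with N hN
    have hN' : (0 : ℝ) < N := by exact_mod_cast hN
    rw [div_le_iff₀ hN']
    push_cast
    have := Nat.floor_le (show 0 ≤ (N : ℝ) * x by positivity)
    have e : (x + 1 / (N : ℝ)) * N = N * x + 1 := by field_simp
    linarith

theorem ge_main (hex : Exch n t)
    (hmul : ∀ a b (s : Multiset α), s.card + 1 = n →
      t (mul a b ::ₘ s) = t (a ::ₘ s) + t (b ::ₘ s)) (θs : List (G →₀ ℝ)) :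
    (∀ θ ∈ θs, ∀ v, 0 ≤ θ v) → ∀ X : Multiset α, X.card + θs.length + 2 = n → ∀ a b c d : G,
    mixL θs (fun s => t (X + s.map o)) (a ::ₘ b ::ₘ 0) *
        mixL θs (fun s => t (X + s.map o)) (c ::ₘ d ::ₘ 0) ≤
      2 * (mixL θs (fun s => t (X + s.map o)) (a ::ₘ c ::ₘ 0) *
          mixL θs (fun s => t (X + s.map o)) (b ::ₘ d ::ₘ 0) +
        mixL θs (fun s => t (X + s.map o)) (a ::ₘ d ::ₘ 0) *
          mixL θs (fun s => t (X + s.map o)) (b ::ₘ c ::ₘ 0)) := by
  induction θs with
  | nil =>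
    intro _ X hX a b c d
    simp only [mixL]
    have e : ∀ x y : G, X + Multiset.map o (x ::ₘ y ::ₘ 0) = o x ::ₘ o y ::ₘ X := by
      intro x y
      rw [map_cons, map_cons, map_zero, add_cons, add_cons, add_zero]
    simp only [e]
    exact hex X (by simpa using hX) (o a) (o b) (o c) (o d)
  | cons θ θs ih =>
    intro hθ X hX a b c d
    rw [List.length_cons] at hX
    have hθ0 : ∀ v, 0 ≤ θ v := hθ θ List.mem_cons_self
    have hθs : ∀ θ' ∈ θs, ∀ v, 0 ≤ θ' v := fun θ' h' => hθ θ' (List.mem_cons_of_mem _ h')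
    simp only [mixL]
    rcases θ.support.eq_empty_or_nonempty with hsup | hsup
    · have e : mix θ (fun s => t (X + s.map o)) = fun s => (0 : ℝ) * (fun _ => (0 : ℝ)) s := by
        funext s
        unfold mix Finsupp.sum
        rw [hsup, Finset.sum_empty]
        simp
      rw [e, mixL_smul]
      simp
    · -- the approximations
      choose cl hcl using fun N : ℕ => exists_cls hmul o (fun v => ⌊(N : ℝ) * θ v⌋₊) θ.support hsup
      obtain ⟨K, hK⟩ : ∃ K : ℕ → Multiset G → ℝ, K = fun (N : ℕ) s => ∑ v ∈ θ.support,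
        (((⌊(N : ℝ) * θ v⌋₊ + 1 : ℕ) : ℝ) / (N : ℝ)) * t (X + (v ::ₘ s).map o) := ⟨_, rfl⟩
      have hKlim : Tendsto K atTop (𝓝 (mix θ (fun s => t (X + s.map o)))) := by
        rw [tendsto_pi_nhds]
        intro s
        rw [hK]
        unfold mix Finsupp.sum
        exact tendsto_finsetSum _ fun v _ => (tendsto_coeff (θ v) (hθ0 v)).mul tendsto_const_nhds
      have hval : ∀ x y : G, Tendsto (fun N => mixL θs (K N) (x ::ₘ y ::ₘ 0)) atTop
          (𝓝 (mixL θs (mix θ (fun s => t (X + s.map o))) (x ::ₘ y ::ₘ 0))) := fun x y =>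
        ((continuous_mixL_apply θs (x ::ₘ y ::ₘ 0)).tendsto _).comp hKlim
      have hKeq : ∀ N : ℕ, ∀ x y : G, mixL θs (K N) (x ::ₘ y ::ₘ 0) =
          (1 / (N : ℝ)) * mixL θs (fun s => t ((cl N ::ₘ X) + s.map o)) (x ::ₘ y ::ₘ 0) := by
        intro N x y
        have h1 := mixL_congr θs (K N) (fun s => (1 / (N : ℝ)) * t ((cl N ::ₘ X) + s.map o)) 2 (by
          intro s hs
          rw [hK]
          simp only
          rw [cons_add, hcl N (X + s.map o) (by rw [card_add, card_map]; omega), Finset.mul_sum]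
          refine Finset.sum_congr rfl fun v _ => ?_
          rw [map_cons, add_cons]
          ring) (x ::ₘ y ::ₘ 0) (by simp)
        rw [h1, mixL_smul]
      refine le_of_tendsto_of_tendsto ((hval a b).mul (hval c d))
        ((((hval a c).mul (hval b d)).add ((hval a d).mul (hval b c))).const_mul 2) ?_
      filter_upwards with N
      have h1 := ih hθs (cl N ::ₘ X) (by rw [card_cons]; omega) a b c d
      simp only [hKeq]
      have h2 := mul_le_mul_of_nonneg_left h1 (mul_self_nonneg (1 / (N : ℝ)))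
      calc _ = 1 / (N : ℝ) * (1 / (N : ℝ)) *
          (mixL θs (fun s => t ((cl N ::ₘ X) + s.map o)) (a ::ₘ b ::ₘ 0) *
            mixL θs (fun s => t ((cl N ::ₘ X) + s.map o)) (c ::ₘ d ::ₘ 0)) := by ring
        _ ≤ _ := h2
        _ = _ := by ring

end

/-- **The exchange inequality for all combinations.** -/
theorem leafGE : StmGE := by
  intro α G n t mul o J _ hex hmul hJ θs hθ hn a b c d
  have e : ∀ x y : G, mixL θs J (x ::ₘ y ::ₘ 0) =
      mixL θs (fun s => t (0 + s.map o)) (x ::ₘ y ::ₘ 0) := by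
    intro x y
    refine mixL_congr θs J _ 2 (fun s hs => ?_) _ (by simp)
    rw [zero_add]
    exact hJ s (by rw [hs, hn])
  rw [e, e, e, e, e, e]
  exact ge_main hex hmul θs hθ 0 (by rw [card_zero]; omega) a b c d

end Pool.Agent.N769.RK
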