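import Pool.Agent.N769.RK.GE

/-!
The limit form of an almost invariant sequence (helper769, for helper110).
-/

set_option autoImplicit false

open Multiset Filter Topology

namespace Pool.Agent.N769.RK

open Pool.Agent.N110 Pool.Agent.N110.RK

/-- the domination constants -/
noncomputable def CC {α : Type} {r : ℕ} (n : ℕ) (t : Multiset α → ℝ) (φ : Lat r → α → α) (H : α)
    (u : Lat r) : ℝ :=
  max 1 (4 ^ (n - 1) * t (φ u H ::ₘ replicate (n - 1) H) / t (replicate n H))

/-- the quotients -/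
noncomputable def Tq {α 𝒜 : Type} {r : ℕ} (n : ℕ) (t : Multiset α → ℝ) (φ : Lat r → α → α) (H : α)
    (m : ℕ → ℝ) (M : 𝒜 → ℕ → α) (ν : ℕ) (a : 𝒜) (q : ℕ) (s : Multiset (Lat r)) : ℝ :=
  if s.card = n - ν then t (replicate ν (M a q) + s.map (fun v => φ v H)) / m q ^ ν else 0

section

variable {α 𝒜 : Type} [Preorder 𝒜] {n r : ℕ} {t : Multiset α → ℝ} {φ : Lat r → α → α}
  {mul : α → α → α} {H : α} {m : ℕ → ℝ} {M : 𝒜 → ℕ → α} {ν : ℕ} {c ε : ℝ}

theorem base (h : RSys n r t φ mul H m M ν c ε) (u : Lat r) (s : Multiset α)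
    (hs : s.card + 1 = n) : t (φ u H ::ₘ s) ≤ CC n t φ H u * t (H ::ₘ s) := by
  have h1 := rkt1 h.pos h.ex H (φ u H) s 0 (by rw [card_zero]; omega)
  rw [add_zero, add_zero, add_zero] at h1
  have e1 : s.card = n - 1 := by omega
  have e2 : n - 1 + 1 = n := by omega
  rw [e1, e2] at h1
  have p1 : 0 < t (replicate n H) := h.pos _ (card_replicate _ _)
  have p2 : 0 < t (H ::ₘ s) := h.pos _ (by rw [card_cons]; exact hs)
  calc t (φ u H ::ₘ s) ≤
      4 ^ (n - 1) * t (φ u H ::ₘ replicate (n - 1) H) / t (replicate n H) * t (H ::ₘ s) := by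
        rw [div_mul_eq_mul_div, le_div_iff₀ p1]
        calc _ ≤ _ := h1
          _ = _ := by ring
    _ ≤ _ := mul_le_mul_of_nonneg_right (le_max_right _ _) p2.le

/-- the translate of a multiset -/
theorem map_inv (h : RSys n r t φ mul H m M ν c ε) (w : Lat r) (s : Multiset α) :
    (s.map (φ (-w))).map (φ w) = s := by
  have e2 : φ w ∘ φ (-w) = id := by
    rw [← h.φ_add, add_neg_cancel, h.φ_zero]
  rw [Multiset.map_map, e2, Multiset.map_id]

theorem base2 (h : RSys n r t φ mul H m M ν c ε) (v w : Lat r) (s : Multiset α)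
    (hs : s.card + 1 = n) : t (φ v H ::ₘ s) ≤ CC n t φ H (v - w) * t (φ w H ::ₘ s) := by
  have h1 := base h (v - w) (s.map (φ (-w))) (by rw [card_map]; exact hs)
  have e1 : φ v H = φ w (φ (v - w) H) := by
    have := congrFun (h.φ_add w (v - w)) H
    rw [add_sub_cancel] at this
    exact this
  have e2 : ∀ x : α, t (φ w x ::ₘ s) = t (x ::ₘ s.map (φ (-w))) := by
    intro x
    have := h.inv w (x ::ₘ s.map (φ (-w))) (by rw [card_cons, card_map]; exact hs)
    rw [map_cons, map_inv h] at this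
    exact this
  rw [e1, e2, e2]
  exact h1

theorem Tq_nonneg (h : RSys n r t φ mul H m M ν c ε) (a : 𝒜) (q : ℕ) (s : Multiset (Lat r)) :
    0 ≤ Tq n t φ H m M ν a q s := by
  unfold Tq
  split_ifs with hs
  · have hν := h.hν
    exact div_nonneg (h.pos _ (by rw [card_add, card_replicate, card_map]; omega)).le
      (pow_nonneg (h.m_pos q).le _)
  · exact le_rfl

theorem Tq_dom (h : RSys n r t φ mul H m M ν c ε) (a : 𝒜) (q : ℕ) (v w : Lat r)
    (s : Multiset (Lat r)) :
    Tq n t φ H m M ν a q (v ::ₘ s) ≤ CC n t φ H (v - w) * Tq n t φ H m M ν a q (w ::ₘ s) := by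
  unfold Tq
  rw [card_cons, card_cons]
  have hν := h.hν
  have hm := h.m_pos q
  split_ifs with hs
  · have h1 := base2 h v w (replicate ν (M a q) + s.map (fun v => φ v H))
      (by rw [card_add, card_replicate, card_map]; omega)
    rw [map_cons, map_cons, add_cons, add_cons, mul_div_assoc']
    gcongr
  · simp

theorem Tq_mono (h : RSys n r t φ mul H m M ν c ε) {a a' : 𝒜} (haa : a ≤ a') (q : ℕ)
    (s : Multiset (Lat r)) : Tq n t φ H m M ν a q s ≤ Tq n t φ H m M ν a' q s := by
  unfold Tq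
  have hν := h.hν
  have hm := h.m_pos q
  split_ifs with hs
  · have h1 := (h.mono a a' haa q).rep zero_le_one ν (s.map (fun v => φ v H))
      (by rw [card_map]; omega)
    rw [one_pow, one_mul] at h1
    gcongr
  · exact le_rfl

theorem Tq_inv (h : RSys n r t φ mul H m M ν c ε) (u : Lat r) (a : 𝒜) : ∃ a' : 𝒜, ∀ q s,
    Tq n t φ H m M ν a q (s.map (fun v => u + v)) ≤ Tq n t φ H m M ν a' q s := by
  obtain ⟨a', ha'⟩ := h.M_f (-u) a
  refine ⟨a', fun q s => ?_⟩
  unfold Tq
  rw [card_map]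
  have hν := h.hν
  have hm := h.m_pos q
  split_ifs with hs
  · have h1 := (ha' q).rep zero_le_one ν (s.map (fun v => φ v H)) (by rw [card_map]; omega)
    rw [one_pow, one_mul] at h1
    have e1 : replicate ν (M a q) + (s.map (fun v => u + v)).map (fun v => φ v H) =
        (replicate ν (φ (-u) (M a q)) + s.map (fun v => φ v H)).map (φ u) := by
      rw [Multiset.map_add, map_replicate, Multiset.map_map, Multiset.map_map]
      congr 2
      · have := congrFun (h.φ_add u (-u)) (M a q)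
        rw [add_neg_cancel, h.φ_zero] at this
        exact this
      · refine funext fun v => ?_
        exact congrFun (h.φ_add u v) H
    rw [e1, h.inv u _ (by rw [card_add, card_replicate, card_map]; omega)]
    gcongr
  · exact le_rfl

theorem Tq_le (h : RSys n r t φ mul H m M ν c ε) (a : 𝒜) (s : Multiset (Lat r)) :
    ∀ᶠ q in atTop, Tq n t φ H m M ν a q s ≤
      if s.card = n - ν then c ^ ν * t (replicate ν H + s.map (fun v => φ v H)) else 0 := by
  filter_upwards [h.M_le a] with q hq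
  unfold Tq
  have hν := h.hν
  have hm := h.m_pos q
  split_ifs with hs
  · have h1 := hq.rep (mul_pos h.hc hm).le ν (s.map (fun v => φ v H)) (by rw [card_map]; omega)
    rw [div_le_iff₀ (by positivity)]
    refine h1.trans (le_of_eq ?_)
    rw [mul_pow]
    ring
  · exact le_rfl

theorem Tq_ge (hGE : StmGE) (h : RSys n r t φ mul H m M ν c ε) (a : 𝒜) (q : ℕ) :
    GE (n - ν) (Tq n t φ H m M ν a q) := by
  have hν := h.hν
  have hm := h.m_pos q
  refine hGE α (Lat r) (n - ν) (fun s => t (replicate ν (M a q) + s) / m q ^ ν) mul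
    (fun v => φ v H) _ ?_ ?_ ?_ ?_
  · intro s hs
    have := h.pos (replicate ν (M a q) + s) (by rw [card_add, card_replicate]; omega)
    positivity
  · intro R hR x y z w
    have h1 := h.ex (replicate ν (M a q) + R) (by rw [card_add, card_replicate]; omega) x y z w
    have e : ∀ x y : α, replicate ν (M a q) + x ::ₘ y ::ₘ R = x ::ₘ y ::ₘ (replicate ν (M a q) + R) := by
      intro x y
      rw [add_cons, add_cons]
    simp only [e]
    have hk : 0 < (m q ^ ν)⁻¹ := by positivity
    have h2 := mul_le_mul_of_nonneg_left h1 (mul_pos hk hk).le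
    simp only [div_eq_mul_inv]
    calc _ = (m q ^ ν)⁻¹ * (m q ^ ν)⁻¹ * (t (x ::ₘ y ::ₘ (replicate ν (M a q) + R)) *
        t (z ::ₘ w ::ₘ (replicate ν (M a q) + R))) := by ring
      _ ≤ _ := h2
      _ = _ := by ring
  · intro x y s hs
    have h1 := h.mul_t x y (replicate ν (M a q) + s) (by rw [card_add, card_replicate]; omega)
    simp only [add_cons]
    rw [h1, add_div]
  · intro s hs
    unfold Tq
    rw [if_pos hs]

end

/-- **The limit form.** -/
theorem leafJ (hGE : StmGE) : StmJ := by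
  intro α 𝒜 _ _ _ n r t φ mul H m M ν c ε h 𝒰 h𝒰
  have hν := h.hν
  refine ⟨CC n t φ H, fun v => le_max_left _ _, ?_⟩
  obtain ⟨B, hB⟩ : ∃ B : Multiset (Lat r) → ℝ, B = fun s =>
    if s.card = n - ν then c ^ ν * t (replicate ν H + s.map (fun v => φ v H)) else 0 := ⟨_, rfl⟩
  -- the limits along the ultrafilter
  have hlim : ∀ (a : 𝒜) (s : Multiset (Lat r)), ∃ x : ℝ, 0 ≤ x ∧ x ≤ B s ∧
      Tendsto (fun q => Tq n t φ H m M ν a q s) 𝒰 (𝓝 x) := by
    intro a s
    have h1 : ((𝒰.map (fun q => Tq n t φ H m M ν a q s) : Ultrafilter ℝ) : Filter ℝ) ≤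
        𝓟 (Set.Icc 0 (B s)) := by
      rw [le_principal_iff, Ultrafilter.coe_map, Filter.mem_map]
      have h2 := h𝒰 (Tq_le h a s)
      filter_upwards [h2] with q hq
      rw [hB]
      exact ⟨Tq_nonneg h a q s, hq⟩
    obtain ⟨x, hx, hx2⟩ := isCompact_Icc.ultrafilter_le_nhds _ h1
    exact ⟨x, hx.1, hx.2, by rw [Ultrafilter.coe_map] at hx2; exact hx2⟩
  choose K hK0 hKB hK using hlim
  have hNB : (𝒰 : Filter ℕ).NeBot := inferInstance
  have hKmono : ∀ s, Monotone fun a => K a s := fun s a a' haa =>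
    le_of_tendsto_of_tendsto (hK a s) (hK a' s) (Eventually.of_forall fun q => Tq_mono h haa q s)
  have hbdd : ∀ s, BddAbove (Set.range fun a => K a s) := by
    intro s
    refine ⟨B s, ?_⟩
    rintro _ ⟨a, rfl⟩
    exact hKB a s
  obtain ⟨J0, hJ0⟩ : ∃ J0 : Multiset (Lat r) → ℝ, J0 = fun s => ⨆ a, K a s := ⟨_, rfl⟩
  have hJle : ∀ a s, K a s ≤ J0 s := by
    intro a s
    rw [hJ0]
    exact le_ciSup (hbdd s) a
  have hJtend : ∀ s, Tendsto (fun a => K a s) atTop (𝓝 (J0 s)) := by
    intro s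
    rw [hJ0]
    exact tendsto_atTop_ciSup (hKmono s) (hbdd s)
  have hKge : ∀ a, GE (n - ν) (K a) := fun a =>
    (isClosed_GE (n - ν)).mem_of_tendsto (tendsto_pi_nhds.2 fun s => hK a s)
      (Eventually.of_forall fun q => Tq_ge hGE h a q)
  have hJge : GE (n - ν) J0 :=
    (isClosed_GE (n - ν)).mem_of_tendsto (tendsto_pi_nhds.2 hJtend)
      (Eventually.of_forall fun a => hKge a)
  have hKdom : ∀ a v w s, K a (v ::ₘ s) ≤ CC n t φ H (v - w) * K a (w ::ₘ s) := fun a v w s =>
    le_of_tendsto_of_tendsto (hK a _) ((hK a _).const_mul _)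
      (Eventually.of_forall fun q => Tq_dom h a q v w s)
  have hJdom : ∀ v w s, J0 (v ::ₘ s) ≤ CC n t φ H (v - w) * J0 (w ::ₘ s) := fun v w s =>
    le_of_tendsto_of_tendsto (hJtend _) ((hJtend _).const_mul _)
      (Eventually.of_forall fun a => hKdom a v w s)
  have hJnn : ∀ s, 0 ≤ J0 s := fun s => (hK0 (Classical.arbitrary 𝒜) s).trans (hJle _ s)
  have hJzero : ∀ s, s.card ≠ n - ν → J0 s = 0 := by
    intro s hs
    refine le_antisymm ?_ (hJnn s)
    have h1 : ∀ a, K a s ≤ 0 := by
      intro a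
      have := hKB a s
      rw [hB] at this
      simpa only [if_neg hs] using this
    rw [hJ0]
    exact ciSup_le h1
  have hJinv1 : ∀ (u : Lat r) s, J0 (s.map (fun v => u + v)) ≤ J0 s := by
    intro u s
    have h1 : ∀ a, K a (s.map (fun v => u + v)) ≤ J0 s := by
      intro a
      obtain ⟨a', ha'⟩ := Tq_inv h u a
      exact (le_of_tendsto_of_tendsto (hK a _) (hK a' _)
        (Eventually.of_forall fun q => ha' q s)).trans (hJle a' s)
    exact le_of_tendsto (hJtend _) (Eventually.of_forall h1)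
  have hJinv : ∀ (u : Lat r) s, J0 (s.map (fun v => u + v)) = J0 s := by
    intro u s
    refine le_antisymm (hJinv1 u s) ?_
    have h1 := hJinv1 (-u) (s.map (fun v => u + v))
    rw [Multiset.map_map] at h1
    have e : ((fun v : Lat r => -u + v) ∘ fun v => u + v) = id := by
      funext v
      simp
    rw [e, Multiset.map_id] at h1
    exact h1
  -- the normalisation
  obtain ⟨κ, hκ⟩ : ∃ κ : ℝ, κ = J0 (replicate (n - ν) 0) := ⟨_, rfl⟩
  have hκ0 : 0 < κ := by
    obtain ⟨a, ha⟩ := h.eps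
    refine h.hε.trans_le ?_
    rw [hκ]
    refine le_trans ?_ (hJle a _)
    refine ge_of_tendsto (hK a _) ?_
    filter_upwards [h𝒰 ha] with q hq
    unfold Tq
    rw [card_replicate, if_pos rfl, map_replicate, h.φ_zero, id,
      le_div_iff₀ (pow_pos (h.m_pos q) _)]
    exact hq
  refine ⟨fun s => κ⁻¹ * J0 s, κ, hκ0, ?_, ?_⟩
  · have hκi : 0 ≤ κ⁻¹ := (inv_pos.2 hκ0).le
    refine ⟨fun s => mul_nonneg hκi (hJnn s), fun s hs => by rw [hJzero s hs, mul_zero], ?_, ?_,
      GE_smul hJge _, ?_⟩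
    · rw [← hκ]
      exact inv_mul_cancel₀ hκ0.ne'
    · intro v w s
      have := mul_le_mul_of_nonneg_left (hJdom v w s) hκi
      calc κ⁻¹ * J0 (v ::ₘ s) ≤ κ⁻¹ * (CC n t φ H (v - w) * J0 (w ::ₘ s)) := this
        _ = CC n t φ H (v - w) * (κ⁻¹ * J0 (w ::ₘ s)) := by ring
    · intro u s
      rw [hJinv]
      simp
  · intro a s hs δ hδ
    have e1 : κ * (κ⁻¹ * J0 s) = J0 s := by
      rw [← mul_assoc, mul_inv_cancel₀ hκ0.ne', one_mul]
    have h1 : K a s < J0 s + δ := by
      have := hJle a s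
      linarith
    filter_upwards [(hK a s).eventually_lt_const h1] with q hq
    have hm := h.m_pos q
    unfold Tq at hq
    rw [if_pos hs, div_lt_iff₀ (by positivity)] at hq
    rw [e1]
    exact hq.le

end Pool.Agent.N769.RK
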